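import Mathlib
import Pool.Agent.Results.MP_c28122_co.OddOne

/-!
# `t`-independent sets in even cyclic groups: the maximum size is not monotone

For every `t ≡ 1 mod 4` with `t ≥ 5` the sequence `τ_±(ℤ_n, [1,t])`, `n` even, is not monotone.
-/

set_option autoImplicit false

open Finset

namespace Pool.Agent.Results.MP_8fcc33_co.EvenNotMonotone

/-- The signed `h`-fold sumset `h_± A`. -/
def signedSum {n : ℕ} (h : ℕ) (A : Finset (ZMod n)) : Set (ZMod n) :=
  {g | ∃ c : ZMod n → ℤ, ∑ a ∈ A, |c a| = (h : ℤ) ∧ ∑ a ∈ A, c a • a = g}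

/-- `A` is `t`-independent: `0 ∉ [1,t]_± A`. -/
def TIndep {n : ℕ} (t : ℕ) (A : Finset (ZMod n)) : Prop :=
  ∀ h : ℕ, 1 ≤ h → h ≤ t → (0 : ZMod n) ∉ signedSum h A

/-- `τ_±(ℤ_n, [1,t])`: the maximum size of a `t`-independent set in `ℤ_n`. -/
noncomputable def tau (n t : ℕ) : ℕ :=
  sSup {m | ∃ A : Finset (ZMod n), TIndep t A ∧ A.card = m}

theorem tindep_iff {n : ℕ} (t : ℕ) (A : Finset (ZMod n)) :
    TIndep t A ↔ MP_c28122_co.OddOne.Indep t A := by
  constructor
  · intro h c hc1 hc2 a ha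
    have hnn : 0 ≤ ∑ a ∈ A, |c a| := sum_nonneg (fun a _ => abs_nonneg _)
    rcases Nat.eq_zero_or_pos (∑ a ∈ A, |c a|).toNat with h0 | hpos
    · have h1 : ∑ a ∈ A, |c a| = 0 := by omega
      have h2 := (sum_eq_zero_iff_of_nonneg (fun a _ => abs_nonneg (c a))).1 h1 a ha
      exact abs_eq_zero.1 h2
    · exfalso
      exact h _ hpos (by omega) ⟨c, by omega, hc2⟩
  · rintro h k hk1 hkt ⟨c, hc1, hc2⟩
    have h0 := h c (by rw [hc1]; exact_mod_cast hkt) hc2
    have : ∑ a ∈ A, |c a| = 0 := sum_eq_zero (fun a ha => by rw [h0 a ha, abs_zero])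
    rw [this] at hc1
    omega

theorem tau_eq (n t : ℕ) : tau n t = MP_c28122_co.OddOne.tau n t := by
  unfold tau MP_c28122_co.OddOne.tau
  simp only [tindep_iff]

/-- For every `t ≡ 1 mod 4` with `t ≥ 5` the sequence `(τ_±(ℤ_n, [1,t]))`, indexed by the even
positive integers `n = 2k` in increasing order, is neither non-decreasing nor non-increasing; in
particular this holds for `t = 5`. -/
theorem result : ∀ t : ℕ, t % 4 = 1 → 5 ≤ t →
    ¬ MonotoneOn (fun k : ℕ => tau (2 * k) t) (Set.Ici 1) ∧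
    ¬ AntitoneOn (fun k : ℕ => tau (2 * k) t) (Set.Ici 1) := by
  intro t ht4 ht5
  obtain ⟨q, hq⟩ : ∃ q, t = 4 * q + 5 := ⟨(t - 5) / 4, by omega⟩
  -- `t = 2 e - 1` with `e = 2 q + 3`
  set e := 2 * q + 3 with he
  have hte : t = 2 * e - 1 := by omega
  have he2 : e * e = 4 * (q * q + 3 * q + 2) + 1 := by rw [he]; ring
  have hbt : MP_c28122_co.OddOne.bt t = 2 * (e * e) - 1 := by
    unfold MP_c28122_co.OddOne.bt
    have h1 : t ^ 2 = 2 * (8 * (q * q) + 20 * q + 12) + 1 := by rw [hq]; ring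
    omega
  have hee : e ≤ e * e := Nat.le_mul_self e
  have hge : 3 * e ≤ e * e := Nat.mul_le_mul_right e (by omega)
  -- `n = 2 e²` has value at least two
  have hone : MP_c28122_co.OddOne.tau (2 * (e * e)) t ≠ 1 := by
    intro h
    have := (MP_c28122_co.OddOne.result t (by omega) (by omega) (2 * (e * e)) (by omega)).1 h
    rw [hbt] at this
    omega
  have : NeZero (2 * (e * e)) := ⟨by omega⟩
  have hge1 : 1 ≤ MP_c28122_co.OddOne.tau (2 * (e * e)) t :=
    MP_c28122_co.OddOne.one_le_tau _ _ (by omega)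
  -- `n = 2 e² + 2` has value one
  have hval : MP_c28122_co.OddOne.tau (2 * (e * e + 1)) t = 1 := by
    apply (MP_c28122_co.OddOne.result t (by omega) (by omega) (2 * (e * e + 1)) (by omega)).2
    right
    rw [hbt]
    omega
  have hzero : MP_c28122_co.OddOne.tau (2 * 1) t = 0 :=
    MP_c28122_co.OddOne.tau_eq_zero _ _ (by omega)
  constructor
  · intro hmono
    have := hmono (a := e * e) (b := e * e + 1) (Set.mem_Ici.2 (by omega)) (Set.mem_Ici.2 (by omega))
      (by omega)
    simp only [tau_eq] at this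
    omega
  · intro hanti
    have := hanti (a := 1) (b := e * e) (Set.mem_Ici.2 le_rfl) (Set.mem_Ici.2 (by omega)) (by omega)
    simp only [tau_eq] at this
    omega

end Pool.Agent.Results.MP_8fcc33_co.EvenNotMonotone
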